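import Pool.Agent.H63.C33
import Pool.Agent.H55.PNT

set_option autoImplicit false

namespace Pool.Agent.Results.MP_5edfab_co.Asymptotic

open Filter Topology

/-- `A` is a `C_3[3]`-set: no 3-element set of integers has three distinct translates inside `A`. -/
def IsC33 (A : Finset ℤ) : Prop :=
  ∀ X : Finset ℤ, X.card = 3 → ∀ K : Finset ℤ, K.card = 3 → ∃ k ∈ K, ¬ ∀ x ∈ X, x + k ∈ A

open Classical in
/-- `F n` is the largest size of a `C_3[3]`-set contained in `{1, ..., n}`. -/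
noncomputable def F (n : ℕ) : ℕ :=
  ((Finset.Icc (1 : ℤ) (n : ℤ)).powerset.filter IsC33).sup Finset.card

lemma iff_free (A : Finset ℤ) : IsC33 A ↔ Pool.Agent.H63.C33.Free A := by
  constructor
  · intro h x k hx hk hall
    obtain ⟨k', hk', hn⟩ := h (Finset.univ.image x)
      (by rw [Finset.card_image_of_injective _ hx]; simp) (Finset.univ.image k)
      (by rw [Finset.card_image_of_injective _ hk]; simp)
    obtain ⟨j, -, rfl⟩ := Finset.mem_image.1 hk'
    apply hn
    intro x' hx'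
    obtain ⟨i, -, rfl⟩ := Finset.mem_image.1 hx'
    exact hall i j
  · intro h X hX K hK
    obtain ⟨x1, x2, x3, a1, a2, a3, rfl⟩ := Finset.card_eq_three.1 hX
    obtain ⟨k1, k2, k3, b1, b2, b3, rfl⟩ := Finset.card_eq_three.1 hK
    by_contra hcon
    push Not at hcon
    refine h ![x1, x2, x3] ![k1, k2, k3] ?_ ?_ ?_
    · intro i j hij
      fin_cases i <;> fin_cases j <;> simp at hij ⊢ <;> omega
    · intro i j hij
      fin_cases i <;> fin_cases j <;> simp at hij ⊢ <;> omega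
    · intro i j
      apply hcon
      · fin_cases j <;> simp
      · fin_cases i <;> simp

lemma le_F {n : ℕ} {A : Finset ℤ} (hA : A ⊆ Finset.Icc 1 (n : ℤ))
    (hF : Pool.Agent.H63.C33.Free A) : A.card ≤ F n := by
  classical
  unfold F
  apply Finset.le_sup (f := Finset.card)
  rw [Finset.mem_filter, Finset.mem_powerset]
  exact ⟨hA, (iff_free A).2 hF⟩

lemma exists_F (n : ℕ) : ∃ A : Finset ℤ, A ⊆ Finset.Icc 1 (n : ℤ) ∧
    Pool.Agent.H63.C33.Free A ∧ F n = A.card := by
  classical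
  obtain ⟨A, hA, h⟩ := Finset.exists_mem_eq_sup
    ((Finset.Icc (1 : ℤ) (n : ℤ)).powerset.filter IsC33) ⟨∅, by
      rw [Finset.mem_filter, Finset.mem_powerset]
      refine ⟨Finset.empty_subset _, (iff_free _).2 fun x k _ _ h => ?_⟩
      simpa using h 0 0⟩ Finset.card
  rw [Finset.mem_filter, Finset.mem_powerset] at hA
  exact ⟨A, hA.1, (iff_free A).1 hA.2, h⟩

/-- `F(n) = (1 + o(1)) n^(2/3)`. -/
theorem result : Tendsto (fun n : ℕ => (F n : ℝ) / (n : ℝ) ^ ((2 : ℝ) / 3)) atTop (𝓝 1) := by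
  have hu : Tendsto (fun n : ℕ => (n : ℝ) ^ ((1 : ℝ) / 3)) atTop atTop :=
    (tendsto_rpow_atTop (by norm_num)).comp tendsto_natCast_atTop_atTop
  have h3 : ∀ n : ℕ, ((n : ℝ) ^ ((1 : ℝ) / 3)) ^ 3 = n := fun n => by
    rw [← Real.rpow_natCast, ← Real.rpow_mul (Nat.cast_nonneg n)]; norm_num
  have h2 : ∀ n : ℕ, (n : ℝ) ^ ((2 : ℝ) / 3) = ((n : ℝ) ^ ((1 : ℝ) / 3)) ^ 2 := fun n => by
    rw [← Real.rpow_natCast, ← Real.rpow_mul (Nat.cast_nonneg n)]; norm_num
  rw [tendsto_order]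
  constructor
  · intro a ha
    set δ := min (1 - a) 1 / 4 with hδ
    have hδ0 : 0 < δ := by have : 0 < min (1 - a) 1 := lt_min (by linarith) one_pos
                           linarith
    have hδ1 : δ ≤ 1 / 4 := by have := min_le_right (1 - a) 1; linarith
    have hδ2 : 4 * δ ≤ 1 - a := by have := min_le_left (1 - a) 1; linarith
    have hp := hu.eventually (Pool.Agent.H55.PNT.exists_prime_ap (q := 1) (a := 1) isUnit_one
      (α := 1 - δ) (β := 1) (by linarith) (by linarith))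
    filter_upwards [hp, hu.eventually_ge_atTop 4, hu.eventually_ge_atTop (2 / δ)] with n hn h4 h5
    obtain ⟨p, pp, -, p1, p2⟩ := hn
    have e3 := h3 n
    rw [h2 n]
    generalize (n : ℝ) ^ ((1 : ℝ) / 3) = u at *
    rw [one_mul] at p2
    have p3 : 3 ≤ p := by
      have : (3 : ℝ) ≤ p := by nlinarith
      exact_mod_cast this
    obtain ⟨A, a1, a2, a3⟩ := Pool.Agent.H63.C33.lower pp p3
    have hpn : p ^ 3 ≤ n := by
      have : (p : ℝ) ^ 3 ≤ n := by rw [← e3]; gcongr
      exact_mod_cast this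
    have a4 := le_F (n := n) (a1.trans (Finset.Icc_subset_Icc_right (by exact_mod_cast hpn))) a2
    have a5 : (p : ℝ) ^ 2 ≤ F n + 2 * p := by exact_mod_cast (by omega : p ^ 2 ≤ F n + 2 * p)
    have a6 : ((1 - δ) * u) ^ 2 ≤ (p : ℝ) ^ 2 := by
      apply pow_le_pow_left₀ _ p1.le
      apply mul_nonneg <;> linarith
    rw [div_le_iff₀ hδ0] at h5
    rw [lt_div_iff₀ (by positivity)]
    have hu2 : 0 < u ^ 2 := by positivity
    nlinarith [mul_pos hδ0 hu2, mul_nonneg (sq_nonneg δ) hu2.le]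
  · intro b hb
    obtain ⟨L, hL⟩ := exists_nat_gt (4 / (b - 1))
    have hb' : 0 < b - 1 := by linarith
    have hL0 : (0 : ℝ) < L := lt_trans (by positivity) hL
    filter_upwards [eventually_ge_atTop L, hu.eventually_ge_atTop 1,
      hu.eventually_ge_atTop (2 * (1 + 18 * L) / (b - 1))] with n hn h4 h5
    obtain ⟨A, a1, a2, a3⟩ := exists_F n
    have := Pool.Agent.H63.C33.upper_real a1 a2 (L := L) (by exact_mod_cast hL0) hn h4 (h3 n)
    rw [h2 n, a3]
    generalize (n : ℝ) ^ ((1 : ℝ) / 3) = u at *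
    rw [div_le_iff₀ hb'] at h5
    rw [div_lt_iff₀ hb'] at hL
    have hc : 2 / (L : ℝ) < (b - 1) / 2 := by
      rw [div_lt_iff₀ hL0]; linarith
    rw [div_lt_iff₀ (by positivity)]
    have hu2 : 0 < u ^ 2 := by positivity
    nlinarith [mul_lt_mul_of_pos_left hc hu2]

end Pool.Agent.Results.MP_5edfab_co.Asymptotic
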